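import Mathlib
import Pool.Agent.X182.SM.I
import Pool.Agent.W744.NG.Comp
import Pool.Agent.W744.NG.Final

set_option autoImplicit false
set_option linter.unusedSectionVars false

/-!
# MP_2967d5_an, Q1 (negative answer)

For the Bernoulli shift `R` with infinite entropy, the strongly mixing extensions of `R` form a
comeager (hence not first category) subset of the space of all extensions of `R`.
-/

open MeasureTheory Set Filter Topology
open scoped ENNReal symmDiff

namespace Pool.Agent.Results.MP_2967d5_an.BernoulliResidual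

/-- Invertible bimeasurable `m`-preserving maps of `Z` onto itself (representatives). -/
def PreAut {Z : Type*} [MeasurableSpace Z] (m : Measure Z) : Type _ :=
  {S : Z ≃ᵐ Z // MeasurePreserving S m m}

/-- Equality modulo null sets. -/
def aeEq {Z : Type*} [MeasurableSpace Z] (m : Measure Z) : Setoid (PreAut m) where
  r := fun S S' => ∀ᵐ z ∂m, S.1 z = S'.1 z
  iseqv :=
    { refl := fun S => Eventually.of_forall (fun _ => rfl)
      symm := fun {S S'} h => h.mono (fun _ hz => hz.symm)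
      trans := fun {S S' S''} h h' => by
        filter_upwards [h, h'] with z h1 h2
        exact h1.trans h2 }

/-- `𝒢(Z)`: the invertible measure preserving transformations modulo null sets. -/
def Aut {Z : Type*} [MeasurableSpace Z] (m : Measure Z) : Type _ := Quotient (aeEq m)

/-- The class of a representative. -/
def cls {Z : Type*} [MeasurableSpace Z] {m : Measure Z} (S : PreAut m) : Aut m := Quotient.mk (aeEq m) S

/-- `N_ε(S; A)`: the classes of the `S'` with `m(S'A Δ SA) < ε`. -/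
def ball {Z : Type*} [MeasurableSpace Z] (m : Measure Z) (S : PreAut m) (A : Set Z) (ε : ℝ) : Set (Aut m) :=
  {q | ∃ S' : PreAut m, cls S' = q ∧ m.real ((S'.1 '' A) ∆ (S.1 '' A)) < ε}

/-- The weak topology of `𝒢(Z)`. -/
instance weak {Z : Type*} [MeasurableSpace Z] (m : Measure Z) : TopologicalSpace (Aut m) :=
  TopologicalSpace.generateFrom
    {U | ∃ (S : PreAut m) (A : Set Z) (ε : ℝ), MeasurableSet A ∧ 0 < ε ∧ U = ball m S A ε}

/-- `𝒢_R`: the classes of the maps `S` of `X × Y` with `π(S z) = R(π z)` almost everywhere. It carries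
the subspace topology. -/
def Extensions {X : Type*} [MeasurableSpace X] {μ : Measure X} (R : PreAut μ) {Y : Type*}
    [MeasurableSpace Y] (ν : Measure Y) : Set (Aut (μ.prod ν)) :=
  {q | ∀ S : PreAut (μ.prod ν), cls S = q → ∀ᵐ z ∂(μ.prod ν), (S.1 z).1 = R.1 z.1}

/-- `L²(Z|X)`: square integrable functions whose conditional second moment
`E(|f|² | X)(x) = ∫ |f(x,y)|² dν(y)` has an essentially bounded square root. -/
def RelL2 {X Y : Type*} [MeasurableSpace X] [MeasurableSpace Y] (μ : Measure X) (ν : Measure Y)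
    (f : X × Y → ℂ) : Prop :=
  MemLp f 2 (μ.prod ν) ∧ MemLp (fun x => Real.sqrt (∫ y, ‖f (x, y)‖ ^ 2 ∂ν)) ∞ μ

/-- `S` is a strongly mixing extension of `R`: for all `f, g ∈ L²(Z|X)`,
`‖E(f∘Sⁿ · ḡ | X) - (E(f | X)∘Rⁿ) · E(ḡ | X)‖_{L²(X)} → 0`, where `E(h | X)(x) = ∫ h(x,y) dν(y)`. -/
def StronglyMixing {X Y : Type*} [MeasurableSpace X] [MeasurableSpace Y] {μ : Measure X} {ν : Measure Y}
    (R : PreAut μ) (S : PreAut (μ.prod ν)) : Prop :=
  ∀ f g : X × Y → ℂ, RelL2 μ ν f → RelL2 μ ν g →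
    Tendsto (fun n : ℕ => eLpNorm (fun x =>
      (∫ y, f ((S.1 : X × Y → X × Y)^[n] (x, y)) * starRingEnd ℂ (g (x, y)) ∂ν) -
        (∫ y, f ((R.1 : X → X)^[n] x, y) ∂ν) * ∫ y, starRingEnd ℂ (g (x, y)) ∂ν) 2 μ) atTop (𝓝 0)

/-- `𝒮_R`, as a subset of `𝒢_R`. -/
def MixingExtensions {X : Type*} [MeasurableSpace X] {μ : Measure X} (R : PreAut μ) {Y : Type*}
    [MeasurableSpace Y] (ν : Measure Y) : Set (Extensions R ν) :=
  {q | ∀ S : PreAut (μ.prod ν), cls S = q.1 → StronglyMixing R S}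

/-- `R` is isomorphic to the Bernoulli shift with infinite entropy: the shift
`(x(i, j))_{i ∈ ℤ, j ∈ ℕ} ↦ (x(i + 1, j))` of `([0,1]^ℕ)^ℤ` with the product of Lebesgue measures. -/
def IsInfiniteBernoulli {X : Type*} [MeasurableSpace X] {μ : Measure X} (R : PreAut μ) : Prop :=
  ∃ e : X ≃ᵐ (ℤ × ℕ → ℝ),
    MeasurePreserving e μ (Measure.infinitePi fun _ : ℤ × ℕ => volume.restrict (Icc (0 : ℝ) 1)) ∧
    ∀ x i, e (R.1 x) i = e x (i.1 + 1, i.2)

/-! ### proof -/

open Pool.H359R3 Pool.H359R3.IX Pool.H359R3.MX Pool.Agent.X182.SM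

theorem cls_eq {Z : Type*} [MeasurableSpace Z] {m : Measure Z} {S S' : PreAut m} (h : cls S = cls S') :
    ∀ᵐ z ∂m, S.1 z = S'.1 z := Quotient.exact h

theorem diff_cls {Z : Type*} [MeasurableSpace Z] {m : Measure Z} {S S' : PreAut m} (h : cls S = cls S')
    (A B : Set Z) : m.real ((S.1 '' A) ∆ B) = m.real ((S'.1 '' A) ∆ B) := by
  apply measureReal_congr
  exact (img_ae m S.1 S'.1 S.2 (cls_eq h) A).symmDiff (ae_eq_refl B)

theorem mem_ball_iff {Z : Type*} [MeasurableSpace Z] (m : Measure Z) (S S' : PreAut m) (A : Set Z) (ε : ℝ) :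
    cls S' ∈ ball m S A ε ↔ m.real ((S'.1 '' A) ∆ (S.1 '' A)) < ε := by
  constructor
  · rintro ⟨S'', h1, h2⟩
    rw [← diff_cls h1]
    exact h2
  · intro h
    exact ⟨S', rfl, h⟩

theorem nbhd {Z : Type*} [MeasurableSpace Z] (m : Measure Z) [IsProbabilityMeasure m] (O : Set (Aut m))
    (hO : IsOpen O) : ∀ S : PreAut m, cls S ∈ O → ∃ J : Finset (Set Z), (∀ A ∈ J, MeasurableSet A) ∧
      ∃ ε : ℝ, 0 < ε ∧ ∀ S' : PreAut m, (∀ A ∈ J, m.real ((S'.1 '' A) ∆ (S.1 '' A)) < ε) → cls S' ∈ O := by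
  classical
  have hO' : TopologicalSpace.GenerateOpen
    {U | ∃ (S : PreAut m) (A : Set Z) (ε : ℝ), MeasurableSet A ∧ 0 < ε ∧ U = ball m S A ε} O := hO
  induction hO' with
  | basic U hU =>
    obtain ⟨S0, A, ε, hA, hε, rfl⟩ := hU
    intro S hS
    rw [mem_ball_iff] at hS
    refine ⟨{A}, fun B hB => by rw [Finset.mem_singleton] at hB; rw [hB]; exact hA,
      ε - m.real ((S.1 '' A) ∆ (S0.1 '' A)), by linarith, fun S' hS' => ?_⟩
    rw [mem_ball_iff]
    have h1 := hS' A (Finset.mem_singleton_self A)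
    have h2 := diff_tri m (S'.1 '' A) (S.1 '' A) (S0.1 '' A)
    linarith
  | univ =>
    intro S _
    exact ⟨∅, by simp, 1, one_pos, fun _ _ => mem_univ _⟩
  | inter U V hU hV ihU ihV =>
    intro S hS
    obtain ⟨J1, hJ1, ε1, hε1, h1⟩ := ihU hU S hS.1
    obtain ⟨J2, hJ2, ε2, hε2, h2⟩ := ihV hV S hS.2
    refine ⟨J1 ∪ J2, fun A hA => ?_, min ε1 ε2, lt_min hε1 hε2, fun S' hS' => ⟨h1 S' ?_, h2 S' ?_⟩⟩
    · rcases Finset.mem_union.1 hA with h | h
      · exact hJ1 A h
      · exact hJ2 A h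
    · exact fun A hA => lt_of_lt_of_le (hS' A (Finset.mem_union_left _ hA)) (min_le_left _ _)
    · exact fun A hA => lt_of_lt_of_le (hS' A (Finset.mem_union_right _ hA)) (min_le_right _ _)
  | sUnion W hW ihW =>
    intro S hS
    obtain ⟨U, hU, hSU⟩ := hS
    obtain ⟨J, hJ, ε, hε, h⟩ := ihW U hU (hW U hU) S hSU
    exact ⟨J, hJ, ε, hε, fun S' hS' => ⟨U, hU, h S' hS'⟩⟩

/-- the class map on the library type of representatives -/
def clsA {Z : Type*} [MeasurableSpace Z] (m : Measure Z) (S : Pool.Agent.W744.NG.AU m) : Aut m :=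
  cls (m := m) S

theorem weak_cont {Z : Type*} [MeasurableSpace Z] (m : Measure Z) [IsProbabilityMeasure m] (F : DF m) :
    @Continuous (Pool.Agent.W744.NG.AU m) (Aut m) (un F).toTopologicalSpace (weak m) (clsA m) := by
  let tU : TopologicalSpace (Pool.Agent.W744.NG.AU m) := (un F).toTopologicalSpace
  show @Continuous _ _ tU (TopologicalSpace.generateFrom _) _
  rw [continuous_generateFrom_iff]
  rintro _ ⟨S, A, ε, hA, hε, rfl⟩
  rw [isOpen_iff_mem_nhds]
  intro S0 hS0
  have hS0' : m.real ((S0.1 '' A) ∆ (S.1 '' A)) < ε := (mem_ball_iff m S S0 A ε).1 hS0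
  have hT : Tendsto (fun S' : Pool.Agent.W744.NG.AU m => S') (𝓝 S0) (@nhds _ (un F).toTopologicalSpace S0) := tendsto_id
  have hT2 := tend_inv F _ _ _ hT
  have h3 := of_tendsto_un F _ _ _ hT2 A hA (measure_lt_top _ _)
  have h4 := h3.eventually (gt_mem_nhds (show (0 : ℝ≥0∞) < ENNReal.ofReal (ε - m.real ((S0.1 '' A) ∆ (S.1 '' A))) by
    rw [ENNReal.ofReal_pos]; linarith))
  filter_upwards [h4] with S' hS'
  show cls (m := m) S' ∈ ball m S A ε
  rw [mem_ball_iff]
  have e1 : (invA S').1 ⁻¹' A = S'.1 '' A := (MeasurableEquiv.image_eq_preimage_symm S'.1 A).symm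
  have e2 : (invA S0).1 ⁻¹' A = S0.1 '' A := (MeasurableEquiv.image_eq_preimage_symm S0.1 A).symm
  rw [e1, e2] at hS'
  have h5 : m.real ((S'.1 '' A) ∆ (S0.1 '' A)) < ε - m.real ((S0.1 '' A) ∆ (S.1 '' A)) :=
    ENNReal.toReal_lt_of_lt_ofReal hS'
  have h6 := diff_tri m (S'.1 '' A) (S0.1 '' A) (S.1 '' A)
  linarith

/-- the weak topology is the topology of the complete uniform structure -/
theorem weak_ind {Z : Type*} [MeasurableSpace Z] (m : Measure Z) [IsProbabilityMeasure m] (F : DF m) :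
    (un F).toTopologicalSpace = TopologicalSpace.induced (clsA m) (weak m) := by
  apply le_antisymm
  · exact continuous_iff_le_induced.1 (weak_cont m F)
  · rw [← continuous_id_iff_le]
    let tI : TopologicalSpace (Pool.Agent.W744.NG.AU m) := TopologicalSpace.induced (clsA m) (weak m)
    rw [@continuous_iff_continuousAt _ _ tI (un F).toTopologicalSpace]
    intro S0
    show Tendsto (fun S : Pool.Agent.W744.NG.AU m => S) (@nhds _ tI S0) (@nhds _ (un F).toTopologicalSpace S0)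
    apply tendsto_un F
    intro i
    rw [ENNReal.tendsto_nhds_zero]
    intro ε hε
    obtain ⟨ε', hε'0, hε'⟩ : ∃ ε' : ℝ, 0 < ε' ∧ ENNReal.ofReal ε' ≤ ε := by
      by_cases h : ε = ∞
      · exact ⟨1, one_pos, by rw [h]; exact le_top⟩
      · exact ⟨ε.toReal, ENNReal.toReal_pos hε.ne' h, by rw [ENNReal.ofReal_toReal h]⟩
    have hnb : (clsA m) ⁻¹' (ball m S0 (S0.1 ⁻¹' F.C i) ε') ∈ @nhds _ tI S0 := by
      refine @IsOpen.mem_nhds _ tI _ _ ?_ ?_
      · apply isOpen_induced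
        exact TopologicalSpace.isOpen_generateFrom_of_mem ⟨S0, _, ε', S0.1.measurable (F.meas i), hε'0, rfl⟩
      · show cls (m := m) S0 ∈ ball m S0 (S0.1 ⁻¹' F.C i) ε'
        rw [mem_ball_iff, symmDiff_self]
        simpa using hε'0
    filter_upwards [hnb] with S hS
    have h1 := (mem_ball_iff _ _ _ _ _).1 hS
    rw [← img_pre' m S0.1 S.1 S0.2 S.2 (F.C i) (F.meas i)] at h1
    rw [← ofReal_measureReal (measure_ne_top _ _)]
    exact le_trans (ENNReal.ofReal_le_ofReal h1.le) hε'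

section
variable {X Y : Type} [MeasurableSpace X] [StandardBorelSpace X] [MeasurableSpace Y] [StandardBorelSpace Y]
  {μ : Measure X} (ν : Measure Y) [IsProbabilityMeasure μ] [IsProbabilityMeasure ν]

/-- representatives of extensions -/
abbrev PE (R : PreAut μ) : Type := {S : Pool.Agent.W744.NG.AU (μ.prod ν) // ∀ᵐ z ∂(μ.prod ν), (S.1 z).1 = R.1 z.1}

/-- limits of extensions are extensions -/
theorem ext_lim (R : PreAut μ) (F : DF (μ.prod ν)) (S : ℕ → PE ν R) (S0 : Pool.Agent.W744.NG.AU (μ.prod ν))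
    (h : Tendsto (fun n => (S n).1) atTop (@nhds _ (un F).toTopologicalSpace S0)) :
    ∀ᵐ z ∂(μ.prod ν), (S0.1 z).1 = R.1 z.1 := by
  have h1 : ∀ A : Set X, MeasurableSet A →
      (μ.prod ν) ((S0.1 ⁻¹' (Prod.fst ⁻¹' A)) ∆ (Prod.fst ⁻¹' (R.1 ⁻¹' A))) = 0 := by
    intro A hA
    have h2 := of_tendsto_un F atTop _ S0 h (Prod.fst ⁻¹' A) (measurable_fst hA) (measure_lt_top _ _)
    have h3 : (fun n => (μ.prod ν) (((S n).1.1 ⁻¹' (Prod.fst ⁻¹' A)) ∆
        (S0.1 ⁻¹' (Prod.fst ⁻¹' A)))) = fun _ => (μ.prod ν) ((Prod.fst ⁻¹' (R.1 ⁻¹' A)) ∆ (S0.1 ⁻¹' (Prod.fst ⁻¹' A))) := by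
      funext n
      apply measure_congr
      refine Filter.EventuallyEq.symmDiff ?_ (ae_eq_refl _)
      filter_upwards [(S n).2] with z hz
      apply propext
      show ((S n).1.1 z).1 ∈ A ↔ R.1 z.1 ∈ A
      rw [hz]
    rw [h3] at h2
    have h4 := tendsto_nhds_unique h2 tendsto_const_nhds
    rw [symmDiff_comm]
    exact h4.symm
  obtain ⟨f, hf, hinj⟩ := MeasurableSpace.measurable_injection_nat_bool_of_countablySeparated (α := X)
  have h2 : ∀ i : ℕ, ∀ᵐ z ∂(μ.prod ν), (f (S0.1 z).1 i = true ↔ f (R.1 z.1) i = true) := by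
    intro i
    have hA : MeasurableSet {x : X | f x i = true} := ((measurable_pi_apply i).comp hf) (measurableSet_singleton true)
    have h3 := h1 _ hA
    rw [measure_symmDiff_eq_zero_iff] at h3
    filter_upwards [h3] with z hz
    have : (z ∈ S0.1 ⁻¹' (Prod.fst ⁻¹' {x : X | f x i = true})) =
        (z ∈ Prod.fst ⁻¹' (R.1 ⁻¹' {x : X | f x i = true})) := hz
    exact iff_of_eq this
  rw [← ae_all_iff] at h2
  filter_upwards [h2] with z hz
  apply hinj
  funext i
  exact Bool.eq_iff_iff.2 (hz i)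

theorem pe_baire [NullSingletonClass μ] [NullSingletonClass ν] (R : PreAut μ) (F : DF (μ.prod ν)) :
    @BaireSpace (PE ν R) (TopologicalSpace.induced (fun S : PE ν R => S.1) (un F).toTopologicalSpace) := by
  have hC := Pool.Agent.W744.NG.Compl.main (X × Y) (μ.prod ν) F
  let uA : UniformSpace (Pool.Agent.W744.NG.AU (μ.prod ν)) := un F
  let κ : PE ν R → Pool.Agent.W744.NG.AU (μ.prod ν) := fun S => S.1
  let uC : UniformSpace (PE ν R) := UniformSpace.comap κ uA
  have hcg : (uniformity (Pool.Agent.W744.NG.AU (μ.prod ν))).IsCountablyGenerated := un_cg F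
  have hcg2 : (uniformity (PE ν R)).IsCountablyGenerated := by
    show (Filter.comap _ _).IsCountablyGenerated
    infer_instance
  have hcomp : CompleteSpace (PE ν R) := by
    refine UniformSpace.complete_of_cauchySeq_tendsto fun S hS => ?_
    have huc : UniformContinuous κ := uniformContinuous_comap
    have h1 : CauchySeq (fun n => κ (S n)) := huc.comp_cauchySeq hS
    obtain ⟨S0, hS0⟩ := cauchySeq_tendsto_of_complete h1
    have h2 := ext_lim ν R F S S0 hS0
    refine ⟨⟨S0, h2⟩, ?_⟩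
    rw [show 𝓝 (⟨S0, h2⟩ : PE ν R) = Filter.comap κ (@nhds _ (un F).toTopologicalSpace S0) from
      @nhds_induced _ _ (un F).toTopologicalSpace κ ⟨S0, h2⟩, Filter.tendsto_comap_iff]
    exact hS0
  show @BaireSpace (PE ν R) uC.toTopologicalSpace
  let _ : PseudoMetricSpace (PE ν R) := UniformSpace.pseudoMetricSpace (PE ν R)
  exact inferInstance

theorem mem_ext (R : PreAut μ) (S : PreAut (μ.prod ν)) :
    cls S ∈ Extensions R ν ↔ ∀ᵐ z ∂(μ.prod ν), (S.1 z).1 = R.1 z.1 := by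
  constructor
  · intro h
    exact h S rfl
  · intro h S' hS'
    filter_upwards [h, cls_eq hS'] with z h1 h2
    rw [h2, h1]

/-- the class map on representatives of extensions -/
noncomputable def clsE (R : PreAut μ) (S : PE ν R) : Extensions R ν := ⟨clsA (μ.prod ν) S.1, (mem_ext ν R S.1).2 S.2⟩

theorem clsE_surj (R : PreAut μ) : Function.Surjective (clsE ν R) := by
  rintro ⟨q, hq⟩
  obtain ⟨S, rfl⟩ := Quotient.exists_rep q
  exact ⟨⟨S, (mem_ext ν R S).1 hq⟩, rfl⟩

theorem not_meagre [NullSingletonClass μ] [NullSingletonClass ν] (R : PreAut μ)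
    (hne : Nonempty (PE ν R)) (A : Set (Extensions R ν)) (hA : A ∈ residual (Extensions R ν)) : ¬ IsMeagre A := by
  intro h3
  have h4 : (∅ : Set (Extensions R ν)) ∈ residual (Extensions R ν) := by
    have := Filter.inter_mem hA h3
    rwa [inter_compl_self] at this
  obtain ⟨F⟩ := exists_DF (μ.prod ν)
  let tE : TopologicalSpace (PE ν R) := TopologicalSpace.induced (fun S : PE ν R => S.1) (un F).toTopologicalSpace
  have hind : @IsInducing _ _ tE _ (clsE ν R) := by
    refine @IsInducing.mk _ _ tE _ _ ?_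
    show TopologicalSpace.induced (fun S : PE ν R => S.1) (un F).toTopologicalSpace =
      TopologicalSpace.induced (clsE ν R) (TopologicalSpace.induced Subtype.val (weak (μ.prod ν)))
    rw [weak_ind (μ.prod ν) F, induced_compose, induced_compose]
    rfl
  rw [Pool.Agent.W744.NG.Final.res_iff (clsE ν R) hind (clsE_surj ν R), preimage_empty] at h4
  have hB : BaireSpace (PE ν R) := pe_baire ν R F
  obtain ⟨x, hx⟩ := (dense_of_mem_residual h4).nonempty_iff.2 hne
  exact hx

end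

/-- **Theorem.** Let `(X, μ)` be a nonatomic standard probability space (for instance `[0,1]` with
Lebesgue measure). Automorphisms `R` of `(X, μ)` isomorphic to the Bernoulli shift with infinite entropy
exist, and for each of them and each nonatomic standard probability space `(Y, ν)`, the set `𝒮_R` of the
strongly mixing extensions of `R` is comeager in `𝒢_R`, and it is not of first category in `𝒢_R`. -/
theorem result {X : Type} [MeasurableSpace X] [StandardBorelSpace X] (μ : Measure X)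
    [IsProbabilityMeasure μ] [NullSingletonClass μ] :
    (∃ R : PreAut μ, IsInfiniteBernoulli R) ∧
      ∀ R : PreAut μ, IsInfiniteBernoulli R →
        ∀ (Y : Type) [MeasurableSpace Y] [StandardBorelSpace Y] (ν : Measure Y) [IsProbabilityMeasure ν]
          [NullSingletonClass ν],
          MixingExtensions R ν ∈ residual (Extensions R ν) ∧ ¬ IsMeagre (MixingExtensions R ν) := by
  classical
  constructor
  · obtain ⟨eX, hX⟩ := exists_iso μ
    obtain ⟨eZ, hZ⟩ := exists_iso mm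
    let e1 : X ≃ᵐ XX := eX.trans eZ.symm
    have h1 : MeasurePreserving e1 μ mm := (MeasurePreserving.symm eZ hZ).comp hX
    refine ⟨⟨RR e1, RR_mp μ e1 h1⟩, e1, h1, fun x i => ?_⟩
    show e1 (e1.symm (sh (e1 x))) i = _
    rw [MeasurableEquiv.apply_symm_apply]
    rfl
  intro R hR Y _ _ ν _ _
  obtain ⟨e1, h1, hsh⟩ := hR
  have hRR : R = ⟨RR e1, RR_mp μ e1 h1⟩ := by
    apply Subtype.ext
    apply MeasurableEquiv.ext
    funext x
    show R.1 x = e1.symm (sh (e1 x))
    rw [← e1.symm_apply_apply (R.1 x)]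
    congr 1
    funext i
    exact hsh x i
  subst hRR
  set R : PreAut μ := ⟨RR e1, RR_mp μ e1 h1⟩ with hRd
  obtain ⟨e2, h2⟩ := exists_iso ν
  have hext : ∀ S : PreAut (μ.prod ν), cls S ∈ Extensions R ν ↔ IsExt μ ν (RR e1) S.1 := by
    intro S
    rw [mem_ext]
    exact ⟨fun h => ⟨S.2, h⟩, fun h => h.2⟩
  let I : Type := Σ H : ℕ, Finset (Fin (H + 1)) × Finset (Fin (H + 1)) × ℕ
  let P : I → Set (Extensions R ν) := fun i =>
    {e | ∃ n0 : ℕ, ∀ S : PreAut (μ.prod ν), cls S = e.1 → ∀ n ≥ n0,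
      ∫ x, tt (cj e1 e2 S.1) (i.1 + 1) i.2.1 i.2.2.1 n x ^ 2 ∂mm ≤ 1 / ((i.2.2.2 : ℝ) + 1)}
  have hsub : (⋂ i, P i) ⊆ MixingExtensions R ν := by
    intro e he S hS
    have hTst : Tst (cj e1 e2 S.1) := by
      intro H hH d d'
      obtain ⟨K, rfl⟩ : ∃ K, H = K + 1 := ⟨H - 1, by have := NeZero.pos H; omega⟩
      rw [Metric.tendsto_atTop]
      intro ε hε
      obtain ⟨k, hk⟩ := exists_nat_one_div_lt hε
      obtain ⟨n0, hn0⟩ := mem_iInter.1 he ⟨K, d, d', k⟩
      refine ⟨n0, fun n hn => ?_⟩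
      rw [Real.dist_eq, sub_zero, abs_of_nonneg (integral_nonneg fun x => sq_nonneg _)]
      exact lt_of_le_of_lt (hn0 S hS n hn) hk
    intro f g hf hg
    have hSe : IsExt μ ν (RR e1) S.1 := (hext S).1 (by rw [hS]; exact e.2)
    exact sm_gen μ ν e1 h1 e2 h2 S.1 hSe hTst f g hf.1 hg.1 hf.2
  have hres : MixingExtensions R ν ∈ residual (Extensions R ν) := by
    refine Filter.mem_of_superset (residual_of P ?_) hsub
    rintro ⟨H, d, d', k⟩ O hO ⟨e, he⟩
    obtain ⟨O', hO', rfl⟩ := isOpen_induced_iff.1 hO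
    obtain ⟨S, hS⟩ := Quotient.exists_rep e.1
    have hSe : cls S = e.1 := hS
    have hSO : cls S ∈ O' := by rw [hSe]; exact he
    obtain ⟨J, hJ, ε, hε, hJO⟩ := nbhd (μ.prod ν) O' hO' S hSO
    have hSext : IsExt μ ν (RR e1) S.1 := (hext S).1 (by rw [hSe]; exact e.2)
    let A : Fin J.card → Set (X × Y) := fun i => (J.equivFin.symm i).1
    have hA : ∀ i, MeasurableSet (A i) := fun i => hJ _ (J.equivFin.symm i).2
    obtain ⟨S0, hS0, hclose, J', hJ'f, hJ'm, δ', hδ', n0, hopen⟩ := local_gen μ ν e1 h1 e2 h2 S.1 hSext J.card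
      (fun i => S.1 '' A i) (fun i => S.1.measurableSet_image.2 (hA i)) ε hε (H + 1) d d'
      (1 / ((k : ℝ) + 1)) (by positivity)
    let Q0 : PreAut (μ.prod ν) := ⟨S0, hS0.1⟩
    have hQ0e : cls Q0 ∈ Extensions R ν := (hext Q0).2 hS0
    have hQ0O : cls Q0 ∈ O' := by
      apply hJO
      intro B hB
      have h1 := hclose (J.equivFin ⟨B, hB⟩)
      have h2 : A (J.equivFin ⟨B, hB⟩) = B := by
        show (J.equivFin.symm (J.equivFin ⟨B, hB⟩)).1 = B
        rw [Equiv.symm_apply_apply]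
      rw [h2, img_pre (μ.prod ν) S.1 S0 S.2 hS0.1 B (hJ B hB)] at h1
      exact h1
    refine ⟨Subtype.val ⁻¹' (⋂ F ∈ J', ball (μ.prod ν) Q0 (S0 ⁻¹' F) δ'), ?_, ⟨⟨cls Q0, hQ0e⟩, hQ0O, ?_⟩, ?_⟩
    · refine IsOpen.preimage continuous_subtype_val (hJ'f.isOpen_biInter (fun F hF => ?_))
      exact TopologicalSpace.isOpen_generateFrom_of_mem ⟨Q0, S0 ⁻¹' F, δ', S0.measurable (hJ'm F hF), hδ', rfl⟩
    · show cls Q0 ∈ ⋂ F ∈ J', ball (μ.prod ν) Q0 (S0 ⁻¹' F) δ'
      simp only [mem_iInter]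
      intro F _
      rw [mem_ball_iff, symmDiff_self]
      simpa using hδ'
    · intro e' he'
      refine ⟨n0, fun S' hS' n hn => ?_⟩
      have h3 : cls S' ∈ ⋂ F ∈ J', ball (μ.prod ν) Q0 (S0 ⁻¹' F) δ' := by rw [hS']; exact he'
      simp only [mem_iInter] at h3
      refine hopen S'.1 ((hext S').1 (by rw [hS']; exact e'.2)) (fun F hF => ?_) n hn
      have h4 := (mem_ball_iff _ _ _ _ _).1 (h3 F hF)
      rw [img_pre' (μ.prod ν) S0 S'.1 hS0.1 S'.2 F (hJ'm F hF)]
      exact h4.le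
  refine ⟨hres, not_meagre ν R ?_ _ hres⟩
  -- the space of extensions is not empty
  have hmp : MeasurePreserving (Prod.map (RR e1) (MeasurableEquiv.refl Y)) (μ.prod ν) (μ.prod ν) :=
    (RR_mp μ e1 h1).prod (MeasurePreserving.id ν)
  exact ⟨⟨⟨MeasurableEquiv.prodCongr (RR e1) (MeasurableEquiv.refl Y), hmp⟩, Eventually.of_forall fun z => rfl⟩⟩

end Pool.Agent.Results.MP_2967d5_an.BernoulliResidual
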